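import Mathlib
import Pool.Agent.H388GL.Fin
import Pool.Agent.H855R2.SF.Data
import Pool.Agent.H855R2.SF.Dir

/-!
# One-sided bounds for short integrals of L-functions of `GL(m)` on the critical line

Let `P` be a nonconstant polynomial, `ω ≠ 0`.  In a family of L-functions closed under twists by
`|.|^{iτ}` the bound `|L(1/2, π)| ≤ C_π^(κ+ε)` holds if and only if
`Re (ω ∫_0^T P(L(1/2+it, π)) dt) ≤ C_π^(κ deg P + ε)` for `0 ≤ T ≤ w(π)`, where the windows `w(π)`
may be very short, for instance a negative power of `1 + log C_π`.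
The structure `StandardL` of the analytic data is the one of `Sampling.lean` (helper855).
-/

open Complex Filter Topology Set

namespace Pool.Agent.Results.MP_52e316_nt.OneSidedIntegrals

/-- The analytic data of the standard L-function of a cuspidal automorphic representation `π` of
`GL(m)`: the conductor `N`, the parameters `mu j` of `L(s, π_∞) = ∏ Γ_ℝ (s - mu j)`, the root number
and the entire function `L(s, π)` with its functional equation
`L(s, π_∞) L(s, π) = root N^(1/2-s) L(1-s, π'_∞) L(1-s, π')`, where `π'` is the contragredient,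
`L(s, π') = conj (L(conj s, π))`.  It is written with the entire functions `1/Γ_ℝ`. -/
structure StandardL (m : ℕ) where
  N : ℕ
  N_pos : 0 < N
  mu : Fin m → ℂ
  mu_lt : ∀ j, (mu j).re < 1 / 2
  root : ℂ
  norm_root : ‖root‖ = 1
  L : ℂ → ℂ
  entire : Differentiable ℂ L
  order : ∃ A : ℝ, ∀ s : ℂ, -1 / 4 ≤ s.re → s.re ≤ 5 / 4 →
    ‖L s‖ ≤ Real.exp (A * (1 + |s.im|) ^ A)
  fe : ∀ s : ℂ, L s * ∏ j, (Gammaℝ (1 - s - (starRingEnd ℂ) (mu j)))⁻¹ =
    root * (N : ℂ) ^ (1 / 2 - s) * (starRingEnd ℂ) (L (1 - (starRingEnd ℂ) s)) *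
      ∏ j, (Gammaℝ (s - mu j))⁻¹

variable {m : ℕ}

/-- The analytic conductor `C_π = N ∏ (1 + |mu j|)`. -/
noncomputable def conductor (π : StandardL m) : ℝ := π.N * ∏ j, (1 + ‖π.mu j‖)

/-- The twist `π ⊗ |.|^{iτ}`, with `L(s, π ⊗ |.|^{iτ}) = L(s + iτ, π)`. -/
noncomputable def twist (π : StandardL m) (τ : ℝ) : StandardL m where
  N := π.N
  N_pos := π.N_pos
  mu := fun j => π.mu j - τ * I
  mu_lt := by
    intro j
    simp only [sub_re, mul_re, ofReal_re, I_re, mul_zero, ofReal_im, I_im, mul_one, sub_self,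
      sub_zero]
    exact π.mu_lt j
  root := π.root * (π.N : ℂ) ^ (-(τ * I))
  norm_root := by
    rw [norm_mul, π.norm_root, one_mul, Complex.norm_natCast_cpow_of_pos π.N_pos]
    simp
  L := fun s => π.L (s + τ * I)
  entire := π.entire.comp (by fun_prop)
  order := by
    obtain ⟨A, hA⟩ := π.order
    refine ⟨|A| * (1 + |τ|) ^ |A| + |A|, fun s h1 h2 => ?_⟩
    have h3 := hA (s + τ * I) (by simpa using h1) (by simpa using h2)
    refine h3.trans (Real.exp_le_exp.2 ?_)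
    have e : (s + τ * I).im = s.im + τ := by simp
    rw [e]
    have h4 : 1 + |s.im + τ| ≤ (1 + |τ|) * (1 + |s.im|) := by
      have := abs_add_le s.im τ
      nlinarith [abs_nonneg s.im, abs_nonneg τ, mul_nonneg (abs_nonneg s.im) (abs_nonneg τ)]
    have h0 : (1:ℝ) ≤ 1 + |s.im + τ| := by linarith [abs_nonneg (s.im + τ)]
    have h1' : (1:ℝ) ≤ 1 + |s.im| := by linarith [abs_nonneg s.im]
    have hτ1 : (1:ℝ) ≤ 1 + |τ| := by linarith [abs_nonneg τ]
    have hA0 := abs_nonneg A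
    set A' : ℝ := |A| * (1 + |τ|) ^ |A| + |A| with hA'
    have hA'A : |A| ≤ A' := by
      rw [hA']
      have : 0 ≤ |A| * (1 + |τ|) ^ |A| := by positivity
      linarith
    calc A * (1 + |s.im + τ|) ^ A ≤ |A| * (1 + |s.im + τ|) ^ A :=
          mul_le_mul_of_nonneg_right (le_abs_self A) (by positivity)
      _ ≤ |A| * (1 + |s.im + τ|) ^ |A| := by
          apply mul_le_mul_of_nonneg_left _ hA0
          exact Real.rpow_le_rpow_of_exponent_le h0 (le_abs_self A)
      _ ≤ |A| * ((1 + |τ|) * (1 + |s.im|)) ^ |A| := by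
          apply mul_le_mul_of_nonneg_left _ hA0
          exact Real.rpow_le_rpow (by linarith) h4 hA0
      _ = |A| * (1 + |τ|) ^ |A| * (1 + |s.im|) ^ |A| := by
          rw [Real.mul_rpow (by linarith) (by linarith)]; ring
      _ ≤ A' * (1 + |s.im|) ^ A' := by
          apply mul_le_mul
          · rw [hA']; linarith
          · exact Real.rpow_le_rpow_of_exponent_le h1' hA'A
          · positivity
          · linarith
  fe := by
    intro s
    have h := π.fe (s + τ * I)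
    have e1 : ∀ j, 1 - (s + τ * I) - (starRingEnd ℂ) (π.mu j) =
        1 - s - (starRingEnd ℂ) (π.mu j - τ * I) := by
      intro j; simp; ring
    have e2 : ∀ j, s + τ * I - π.mu j = s - (π.mu j - τ * I) := by
      intro j; ring
    have e3 : 1 - (starRingEnd ℂ) (s + τ * I) = 1 - (starRingEnd ℂ) s + τ * I := by
      simp; ring
    have e4 : (π.N : ℂ) ^ (1 / 2 - (s + τ * I)) =
        (π.N : ℂ) ^ (-(τ * I)) * (π.N : ℂ) ^ (1 / 2 - s) := by
      rw [← Complex.cpow_add _ _ (by exact_mod_cast π.N_pos.ne')]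
      congr 1
      ring
    simp only [e1, e2] at h
    rw [e3, e4] at h
    rw [h]
    ring

/-- A family of such data closed under the twists by `|.|^{iτ}`, `τ` real. -/
def TwistClosed (F : Set (StandardL m)) : Prop := ∀ π ∈ F, ∀ τ : ℝ, twist π τ ∈ F

/-- Molteni's bound to the right of the line `Re s = 1`. -/
def RightBound (F : Set (StandardL m)) : Prop :=
  ∀ δ : ℝ, 0 < δ → ∃ B : ℝ, ∀ π ∈ F, ∀ s : ℂ, 1 + δ ≤ s.re → ‖π.L s‖ ≤ B * conductor π ^ δ

/-- The bound of Q1: `|L(1/2+it, π)| ≤ B ((1+|t|) C_π)^ε` for all `π` in the family, all real `t`. -/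
def GLH (F : Set (StandardL m)) : Prop :=
  ∀ ε : ℝ, 0 < ε → ∃ B : ℝ, ∀ π ∈ F, ∀ t : ℝ,
    ‖π.L (1 / 2 + t * I)‖ ≤ B * ((1 + |t|) * conductor π) ^ ε

/-- `|L(1/2, π)| ≤ B C_π^(κ+ε)` for all `π` in the family. -/
def CentralBound (F : Set (StandardL m)) (κ : ℝ) : Prop :=
  ∀ ε : ℝ, 0 < ε → ∃ B : ℝ, ∀ π ∈ F, ‖π.L (1 / 2)‖ ≤ B * conductor π ^ (κ + ε)

/-- Windows: `0 < w(π) ≤ 1`, and for every `ε > 0` there is `c > 0` with `w(π) ≥ c C_π^(-ε)` for
all `π` in the family. -/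
def Window (F : Set (StandardL m)) (w : StandardL m → ℝ) : Prop :=
  (∀ π ∈ F, w π ≤ 1) ∧
    ∀ ε : ℝ, 0 < ε → ∃ c : ℝ, 0 < c ∧ ∀ π ∈ F, c * conductor π ^ (-ε) ≤ w π

/-- `|∫_0^T P(L(1/2+it, π)) dt| ≤ B C_π^(κ deg P + ε)` for all `π` in the family, `0 ≤ T ≤ w(π)`. -/
def TwoSided (F : Set (StandardL m)) (P : Polynomial ℂ) (κ : ℝ) (w : StandardL m → ℝ) : Prop :=
  ∀ ε : ℝ, 0 < ε → ∃ B : ℝ, ∀ π ∈ F, ∀ T : ℝ, 0 ≤ T → T ≤ w π →
    ‖∫ t in (0:ℝ)..T, P.eval (π.L (1 / 2 + t * I))‖ ≤ B * conductor π ^ (P.natDegree * κ + ε)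

/-- `Re (ω ∫_0^T P(L(1/2+it, π)) dt) ≤ B C_π^(κ deg P + ε)` for all `π` in the family,
`0 ≤ T ≤ w(π)`. -/
def OneSided (F : Set (StandardL m)) (P : Polynomial ℂ) (κ : ℝ) (w : StandardL m → ℝ) (ω : ℂ) :
    Prop :=
  ∀ ε : ℝ, 0 < ε → ∃ B : ℝ, ∀ π ∈ F, ∀ T : ℝ, 0 ≤ T → T ≤ w π →
    (ω * ∫ t in (0:ℝ)..T, P.eval (π.L (1 / 2 + t * I))).re ≤
      B * conductor π ^ (P.natDegree * κ + ε)

/-- A set of primitive Dirichlet characters of modulus `> 1`, one predicate for each modulus. -/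
abbrev Chars : Type := (q : ℕ) → DirichletCharacter ℂ q → Prop

/-- `|L(1/2+it, χ)| ≤ B (q(1+|t|))^(κ+ε)` for all primitive `χ` in `S` of modulus `q > 1`, all
real `t`. -/
def DirichletBound (S : Chars) (κ : ℝ) : Prop :=
  ∀ ε : ℝ, 0 < ε → ∃ B : ℝ, ∀ (q : ℕ) [NeZero q] (χ : DirichletCharacter ℂ q), 1 < q →
    χ.IsPrimitive → S q χ → ∀ t : ℝ,
      ‖DirichletCharacter.LFunction χ (1 / 2 + t * I)‖ ≤ B * (q * (1 + |t|)) ^ (κ + ε)

/-- Windows as a function of the conductor: `w(C) ≤ 1` and `w(C) ≥ c C^(-ε)` for `C ≥ 1`. -/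
def WindowFn (w : ℝ → ℝ) : Prop :=
  (∀ C : ℝ, 1 ≤ C → w C ≤ 1) ∧
    ∀ ε : ℝ, 0 < ε → ∃ c : ℝ, 0 < c ∧ ∀ C : ℝ, 1 ≤ C → c * C ^ (-ε) ≤ w C

/-- `Re (ω ∫_T^{T+h} P(L(1/2+it, χ)) dt) ≤ B C^(κ deg P + ε)`, `C = q(1+|T|)`, for all primitive
`χ` in `S` of modulus `q > 1`, all real `T` and `0 ≤ h ≤ w(C)`. -/
def DirichletOneSided (S : Chars) (P : Polynomial ℂ) (κ : ℝ) (w : ℝ → ℝ) (ω : ℂ) : Prop :=
  ∀ ε : ℝ, 0 < ε → ∃ B : ℝ, ∀ (q : ℕ) [NeZero q] (χ : DirichletCharacter ℂ q), 1 < q →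
    χ.IsPrimitive → S q χ → ∀ T h : ℝ, 0 ≤ h → h ≤ w (q * (1 + |T|)) →
      (ω * ∫ t in T..T + h, P.eval (DirichletCharacter.LFunction χ (1 / 2 + t * I))).re ≤
        B * (q * (1 + |T|)) ^ (P.natDegree * κ + ε)

open H855R2.SF

/-- the family as a family of functions with a conductor -/
theorem afam {F : Set (StandardL m)} (hF : TwistClosed F) (hR : RightBound F) :
    AFam (m : ℝ) (fun (i : F) => i.1.L) (fun (i : F) (t : ℝ) => conductor (twist i.1 t)) where
  m0 := Nat.cast_nonneg m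
  Q1 := fun i t => cond_one_le i.1.N_pos i.1.mu t
  Qs := fun i t u => cond_shift i.1.N i.1.mu t u
  diff := fun i => i.1.entire
  order := fun i => i.1.order
  right := by
    intro δ hδ
    obtain ⟨B, hB⟩ := hR δ hδ
    refine ⟨B, fun i s hs => ?_⟩
    have h := hB (twist i.1 s.im) (hF i.1 i.2 s.im) s.re (by simpa using hs)
    have e : (s.re : ℂ) + s.im * I = s := Complex.re_add_im s
    simp only [twist] at h
    rw [e] at h
    exact h
  refl := by
    refine ⟨16 ^ m, by positivity, fun i x t hx0 hx1 => ?_⟩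
    exact refl_of_fe i.1.N_pos i.1.mu i.1.mu_lt i.1.norm_root i.1.fe hx0 hx1

theorem half_I (t : ℝ) : (1 / 2 : ℂ) + t * I = ⟨1 / 2, t⟩ := (half_eq t).symm

theorem conductor_twist_zero (π : StandardL m) : conductor (twist π 0) = conductor π := by
  simp [conductor, twist]

theorem one_le_conductor (π : StandardL m) : 1 ≤ conductor π := by
  have := cond_one_le π.N_pos π.mu 0
  simpa [conductor] using this

theorem central_iff {F : Set (StandardL m)} (hF : TwistClosed F) {κ : ℝ} :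
    CentralBound F κ ↔
      ZO (fun (i : F) => i.1.L) (fun (i : F) (t : ℝ) => conductor (twist i.1 t)) κ := by
  constructor
  · intro h ε hε
    obtain ⟨B, hB⟩ := h ε hε
    refine ⟨B, fun i t => ?_⟩
    have h1 := hB (twist i.1 t) (hF i.1 i.2 t)
    have e : (twist i.1 t).L (1 / 2) = i.1.L ⟨1 / 2, t⟩ := by
      simp only [twist]
      rw [half_I]
    rw [e] at h1
    exact h1
  · intro h ε hε
    obtain ⟨B, hB⟩ := h ε hε
    refine ⟨B, fun π hπ => ?_⟩
    have h1 := hB ⟨π, hπ⟩ 0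
    simp only at h1
    rw [conductor_twist_zero, ← half_I] at h1
    simpa using h1

theorem glh_iff {F : Set (StandardL m)} (hF : TwistClosed F) : GLH F ↔ CentralBound F 0 := by
  constructor
  · intro h ε hε
    obtain ⟨B, hB⟩ := h ε hε
    refine ⟨B, fun π hπ => ?_⟩
    have h1 := hB π hπ 0
    simpa using h1
  · intro h ε hε
    have hm1 : (0:ℝ) < m + 1 := by positivity
    obtain ⟨B, hB⟩ := h (ε / (m + 1)) (by positivity)
    refine ⟨|B|, fun π hπ t => ?_⟩
    have h1 := hB (twist π t) (hF π hπ t)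
    have e : (twist π t).L (1 / 2) = π.L (1 / 2 + t * I) := rfl
    rw [e, zero_add] at h1
    have hc := one_le_conductor π
    have hct := one_le_conductor (twist π t)
    have hs : conductor (twist π t) ≤ (1 + |t|) ^ (m:ℝ) * conductor π := by
      have := cond_shift π.N π.mu 0 t
      simpa [conductor, twist] using this
    have ht1 : (1:ℝ) ≤ 1 + |t| := by linarith [abs_nonneg t]
    refine h1.trans ?_
    apply mul_le_mul (le_abs_self B) _ (by positivity) (abs_nonneg B)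
    calc conductor (twist π t) ^ (ε / (m + 1)) ≤ ((1 + |t|) ^ (m:ℝ) * conductor π) ^ (ε / (m + 1)) :=
          Real.rpow_le_rpow (by linarith) hs (by positivity)
      _ = (1 + |t|) ^ ((m:ℝ) * (ε / (m + 1))) * conductor π ^ (ε / (m + 1)) := by
          rw [Real.mul_rpow (by positivity) (by linarith), ← Real.rpow_mul (by linarith)]
      _ ≤ (1 + |t|) ^ ε * conductor π ^ ε := by
          apply mul_le_mul
          · apply Real.rpow_le_rpow_of_exponent_le ht1
            rw [mul_div_assoc', div_le_iff₀ hm1]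
            nlinarith
          · apply Real.rpow_le_rpow_of_exponent_le hc
            rw [div_le_iff₀ hm1]
            have : (0:ℝ) ≤ m := Nat.cast_nonneg m
            nlinarith
          · positivity
          · positivity
      _ = ((1 + |t|) * conductor π) ^ ε := by rw [Real.mul_rpow (by linarith) (by linarith)]

theorem twist_zero (π : StandardL m) : twist π 0 = π := by
  cases π
  simp [twist]

theorem twist_L (π : StandardL m) (τ v : ℝ) :
    (twist π τ).L (1 / 2 + v * I) = π.L ⟨1 / 2, τ + v⟩ := by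
  simp only [twist]
  rw [← half_I]
  congr 1
  push_cast
  ring

theorem general {F : Set (StandardL m)} (hF : TwistClosed F) (hR : RightBound F)
    (P : Polynomial ℂ) (hP : 0 < P.natDegree) {κ : ℝ} (hκ : 0 ≤ κ) {w : StandardL m → ℝ}
    (hw : Window F w) {ω : ℂ} (hω : ω ≠ 0) :
    List.TFAE [CentralBound F κ, TwoSided F P κ w, OneSided F P κ w ω] := by
  have H := afam hF hR
  have hmain := Pool.Agent.H388GL.main H P hP hκ hω (w := fun i t => w (twist i.1 t))
    (fun i t => hw.1 _ (hF i.1 i.2 t))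
    (by
      intro ε hε
      obtain ⟨c, hc0, hc⟩ := hw.2 ε hε
      exact ⟨c, hc0, fun i t => hc _ (hF i.1 i.2 t)⟩)
  have hint : ∀ (π : StandardL m) (t T : ℝ),
      ∫ v in (0:ℝ)..T, P.eval (π.L ⟨1 / 2, t + v⟩) =
        ∫ v in (0:ℝ)..T, P.eval ((twist π t).L (1 / 2 + v * I)) := by
    intro π t T
    congr 1
    funext v
    rw [twist_L]
  have hint0 : ∀ (π : StandardL m) (T : ℝ),
      ∫ v in (0:ℝ)..T, P.eval (π.L (1 / 2 + v * I)) =
        ∫ v in (0:ℝ)..T, P.eval (π.L ⟨1 / 2, 0 + v⟩) := by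
    intro π T
    congr 1
    funext v
    rw [half_I, zero_add]
  have e2 : TwoSided F P κ w ↔ ∀ ε : ℝ, 0 < ε → ∃ B : ℝ, ∀ (i : F) (t T : ℝ), 0 ≤ T →
      T ≤ w (twist i.1 t) → ‖∫ v in (0:ℝ)..T, P.eval (i.1.L ⟨1 / 2, t + v⟩)‖ ≤
        B * conductor (twist i.1 t) ^ (P.natDegree * κ + ε) := by
    constructor
    · intro h ε hε
      obtain ⟨B, hB⟩ := h ε hε
      refine ⟨B, fun i t T hT0 hT1 => ?_⟩
      rw [hint]
      exact hB _ (hF i.1 i.2 t) T hT0 hT1
    · intro h ε hε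
      obtain ⟨B, hB⟩ := h ε hε
      refine ⟨B, fun π hπ T hT0 hT1 => ?_⟩
      have h1 := hB ⟨π, hπ⟩ 0 T hT0
      simp only at h1
      rw [conductor_twist_zero, ← hint0] at h1
      apply h1
      rwa [twist_zero]
  have e3 : OneSided F P κ w ω ↔ ∀ ε : ℝ, 0 < ε → ∃ B : ℝ, ∀ (i : F) (t T : ℝ), 0 ≤ T →
      T ≤ w (twist i.1 t) → (ω * ∫ v in (0:ℝ)..T, P.eval (i.1.L ⟨1 / 2, t + v⟩)).re ≤
        B * conductor (twist i.1 t) ^ (P.natDegree * κ + ε) := by
    constructor
    · intro h ε hε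
      obtain ⟨B, hB⟩ := h ε hε
      refine ⟨B, fun i t T hT0 hT1 => ?_⟩
      rw [hint]
      exact hB _ (hF i.1 i.2 t) T hT0 hT1
    · intro h ε hε
      obtain ⟨B, hB⟩ := h ε hε
      refine ⟨B, fun π hπ T hT0 hT1 => ?_⟩
      have h1 := hB ⟨π, hπ⟩ 0 T hT0
      simp only at h1
      rw [conductor_twist_zero, ← hint0] at h1
      apply h1
      rwa [twist_zero]
  rw [central_iff hF, e2, e3]
  exact hmain

theorem dirichlet (S : Chars) (P : Polynomial ℂ) (hP : 0 < P.natDegree) {κ : ℝ} (hκ : 0 ≤ κ)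
    {w : ℝ → ℝ} (hw : WindowFn w) {ω : ℂ} (hω : ω ≠ 0) :
    DirichletBound S κ ↔ DirichletOneSided S P κ w ω := by
  have H := dir_afam S
  have hmain := Pool.Agent.H388GL.main H P hP hκ hω (w := fun i t => w (dirQ i t))
    (fun i t => hw.1 _ (H.Q1 i t))
    (by
      intro ε hε
      obtain ⟨c, hc0, hc⟩ := hw.2 ε hε
      exact ⟨c, hc0, fun i t => hc _ (H.Q1 i t)⟩)
  have hint : ∀ (q : ℕ) [NeZero q] (χ : DirichletCharacter ℂ q) (T h : ℝ),
      ∫ t in T..T + h, P.eval (DirichletCharacter.LFunction χ (1 / 2 + t * I)) =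
        ∫ v in (0:ℝ)..h, P.eval (DirichletCharacter.LFunction χ ⟨1 / 2, T + v⟩) := by
    intro q _ χ T h
    have h1 := intervalIntegral.integral_comp_add_left (a := 0) (b := h)
      (fun t : ℝ => P.eval (DirichletCharacter.LFunction χ (1 / 2 + t * I))) T
    rw [add_zero] at h1
    rw [← h1]
    congr 1
    funext v
    rw [half_I]
  have e1 : DirichletBound S κ ↔ ZO (dirL (S := S)) (dirQ (S := S)) κ := by
    constructor
    · intro h ε hε
      obtain ⟨B, hB⟩ := h ε hε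
      refine ⟨B, fun i t => ?_⟩
      have h1 := hB i.q i.χ i.hq i.prim i.mem t
      rw [half_I] at h1
      exact h1
    · intro h ε hε
      obtain ⟨B, hB⟩ := h ε hε
      refine ⟨B, fun q _ χ hq hχ hS t => ?_⟩
      have h1 := hB ⟨q, hq, χ, hχ, hS⟩ t
      rw [half_I]
      exact h1
  have e3 : DirichletOneSided S P κ w ω ↔ ∀ ε : ℝ, 0 < ε → ∃ B : ℝ, ∀ (i : DC S) (t T : ℝ), 0 ≤ T →
      T ≤ w (dirQ i t) → (ω * ∫ v in (0:ℝ)..T, P.eval (dirL i ⟨1 / 2, t + v⟩)).re ≤
        B * dirQ i t ^ (P.natDegree * κ + ε) := by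
    constructor
    · intro h ε hε
      obtain ⟨B, hB⟩ := h ε hε
      refine ⟨B, fun i t T hT0 hT1 => ?_⟩
      have h1 := hB i.q i.χ i.hq i.prim i.mem t T hT0 hT1
      rw [hint] at h1
      exact h1
    · intro h ε hε
      obtain ⟨B, hB⟩ := h ε hε
      refine ⟨B, fun q _ χ hq hχ hS t T hT0 hT1 => ?_⟩
      have h1 := hB ⟨q, hq, χ, hχ, hS⟩ t T hT0 hT1
      rw [hint]
      exact h1
  rw [e1, e3]
  exact hmain.out 0 2

/-- negative powers of `1 + log C` are windows -/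
theorem log_window (A : ℝ) (hA : 0 ≤ A) : WindowFn (fun C => (1 + Real.log C) ^ (-A)) := by
  refine ⟨fun C hC => ?_, fun ε hε => ?_⟩
  · have h1 := Real.log_nonneg hC
    exact Real.rpow_le_one_of_one_le_of_nonpos (by linarith) (by linarith)
  · set δ : ℝ := ε / (A + 1) with hδ
    have hδ0 : 0 < δ := by positivity
    have hδA : δ * A ≤ ε := by
      rw [hδ, div_mul_eq_mul_div, div_le_iff₀ (by positivity)]
      nlinarith
    refine ⟨((1 + 1 / δ) ^ A)⁻¹, by positivity, fun C hC => ?_⟩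
    have hC0 : 0 < C := by linarith
    have h1 := Real.log_nonneg hC
    have h2 := Real.log_le_rpow_div hC0.le hδ0
    have h3 : 1 ≤ C ^ δ := Real.one_le_rpow hC hδ0.le
    have h4 : 1 + Real.log C ≤ (1 + 1 / δ) * C ^ δ := by
      have : C ^ δ / δ = 1 / δ * C ^ δ := by ring
      linarith
    have h5 : (1 + Real.log C) ^ A ≤ (1 + 1 / δ) ^ A * C ^ ε := by
      calc (1 + Real.log C) ^ A ≤ ((1 + 1 / δ) * C ^ δ) ^ A :=
            Real.rpow_le_rpow (by linarith) h4 hA
        _ = (1 + 1 / δ) ^ A * C ^ (δ * A) := by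
          rw [Real.mul_rpow (by positivity) (by positivity), ← Real.rpow_mul hC0.le]
        _ ≤ _ := by
          apply mul_le_mul_of_nonneg_left _ (by positivity)
          exact Real.rpow_le_rpow_of_exponent_le hC hδA
    have h6 : (1 + Real.log C) ^ (-A) = ((1 + Real.log C) ^ A)⁻¹ := Real.rpow_neg (by linarith) A
    change ((1 + 1 / δ) ^ A)⁻¹ * C ^ (-ε) ≤ (1 + Real.log C) ^ (-A)
    rw [h6, Real.rpow_neg hC0.le, ← mul_inv]
    exact inv_anti₀ (by positivity) h5

/-- **Result.** (1) Let `F` be a family of degree `m` L-data closed under the twists by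
`|.|^{iτ}` and with Molteni's bound to the right of `Re s = 1`, `P` a nonconstant polynomial,
`κ ≥ 0`, `w` a window function and `ω ≠ 0`.  Then the bound `|L(1/2, π)| ≤ B C_π^(κ+ε)` on `F`, the
bound for the short integrals `∫_0^T P(L(1/2+it, π)) dt`, `0 ≤ T ≤ w(π)`, with exponent
`κ deg P + ε`, and the corresponding one-sided bound are equivalent; the grand Lindelof hypothesis
on `F` is the case `κ = 0`.  (2) Unconditionally for all sets of primitive Dirichlet characters.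
(3) The functions `(1 + log C)^(-A)`, `A ≥ 0`, are allowed windows. -/
theorem result :
    (∀ (m : ℕ) (F : Set (StandardL m)), TwistClosed F → RightBound F →
      ∀ P : Polynomial ℂ, 0 < P.natDegree → ∀ w : StandardL m → ℝ, Window F w →
      ∀ ω : ℂ, ω ≠ 0 →
        (∀ κ : ℝ, 0 ≤ κ →
          List.TFAE [CentralBound F κ, TwoSided F P κ w, OneSided F P κ w ω]) ∧
        (GLH F ↔ OneSided F P 0 w ω)) ∧
    (∀ (S : Chars) (P : Polynomial ℂ), 0 < P.natDegree → ∀ w : ℝ → ℝ, WindowFn w →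
      ∀ ω : ℂ, ω ≠ 0 → ∀ κ : ℝ, 0 ≤ κ →
        (DirichletBound S κ ↔ DirichletOneSided S P κ w ω)) ∧
    (∀ A : ℝ, 0 ≤ A → WindowFn (fun C => (1 + Real.log C) ^ (-A)) ∧
      ∀ (m : ℕ) (F : Set (StandardL m)),
        Window F (fun π => (1 + Real.log (conductor π)) ^ (-A))) := by
  refine ⟨?_, ?_, ?_⟩
  · intro m F hF hR P hP w hw ω hω
    refine ⟨fun κ hκ => general hF hR P hP hκ hw hω, ?_⟩
    rw [glh_iff hF]
    exact (general hF hR P hP le_rfl hw hω).out 0 2
  · intro S P hP w hw ω hω κ hκ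
    exact dirichlet S P hP hκ hw hω
  · intro A hA
    have h := log_window A hA
    refine ⟨h, fun m F => ⟨fun π _ => h.1 _ (one_le_conductor π), fun ε hε => ?_⟩⟩
    obtain ⟨c, hc0, hc⟩ := h.2 ε hε
    exact ⟨c, hc0, fun π _ => hc _ (one_le_conductor π)⟩

end Pool.Agent.Results.MP_52e316_nt.OneSidedIntegrals
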