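import Mathlib
import Pool.Agent.H855R2.SF.Std
import Pool.Agent.H855R2.SF.Dir

/-!
# Sampling L-functions of `GL(m)` on the critical line

The size of all central values `L(1/2, π)` in a family closed under twists by `|.|^{iτ}` is
determined by the minimum of `|L(1/2+it, π)|` over the short interval
`0 ≤ t ≤ 2π/(D log C_π)`, for every `D < 1` (the mean spacing of the zeros is `2π/log C_π`).
-/

open Complex Filter Topology Set

namespace Pool.Agent.Results.MP_52e316_nt.Sampling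

/-- The analytic data of the standard L-function of a cuspidal automorphic representation `π` of
`GL(m)`: the conductor `N`, the parameters `mu j` of `L(s, π_∞) = ∏ Γ_ℝ (s - mu j)`, the root number
and the entire function `L(s, π)` with its functional equation
`L(s, π_∞) L(s, π) = root N^(1/2-s) L(1-s, π'_∞) L(1-s, π')`, where `π'` is the contragredient,
`L(s, π') = conj (L(conj s, π))`.  It is written with the entire functions `1/Γ_ℝ`. -/
structure StandardL (m : ℕ) where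
  N : ℕ
  N_pos : 0 < N
  mu : Fin m → ℂ
  mu_lt : ∀ j, (mu j).re < 1 / 2
  root : ℂ
  norm_root : ‖root‖ = 1
  L : ℂ → ℂ
  entire : Differentiable ℂ L
  order : ∃ A : ℝ, ∀ s : ℂ, -1 / 4 ≤ s.re → s.re ≤ 5 / 4 →
    ‖L s‖ ≤ Real.exp (A * (1 + |s.im|) ^ A)
  fe : ∀ s : ℂ, L s * ∏ j, (Gammaℝ (1 - s - (starRingEnd ℂ) (mu j)))⁻¹ =
    root * (N : ℂ) ^ (1 / 2 - s) * (starRingEnd ℂ) (L (1 - (starRingEnd ℂ) s)) *
      ∏ j, (Gammaℝ (s - mu j))⁻¹

variable {m : ℕ}

/-- The analytic conductor `C_π = N ∏ (1 + |mu j|)`. -/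
noncomputable def conductor (π : StandardL m) : ℝ := π.N * ∏ j, (1 + ‖π.mu j‖)

/-- The twist `π ⊗ |.|^{iτ}`, with `L(s, π ⊗ |.|^{iτ}) = L(s + iτ, π)`. -/
noncomputable def twist (π : StandardL m) (τ : ℝ) : StandardL m where
  N := π.N
  N_pos := π.N_pos
  mu := fun j => π.mu j - τ * I
  mu_lt := by
    intro j
    simp only [sub_re, mul_re, ofReal_re, I_re, mul_zero, ofReal_im, I_im, mul_one, sub_self,
      sub_zero]
    exact π.mu_lt j
  root := π.root * (π.N : ℂ) ^ (-(τ * I))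
  norm_root := by
    rw [norm_mul, π.norm_root, one_mul, Complex.norm_natCast_cpow_of_pos π.N_pos]
    simp
  L := fun s => π.L (s + τ * I)
  entire := π.entire.comp (by fun_prop)
  order := by
    obtain ⟨A, hA⟩ := π.order
    refine ⟨|A| * (1 + |τ|) ^ |A| + |A|, fun s h1 h2 => ?_⟩
    have h3 := hA (s + τ * I) (by simpa using h1) (by simpa using h2)
    refine h3.trans (Real.exp_le_exp.2 ?_)
    have e : (s + τ * I).im = s.im + τ := by simp
    rw [e]
    have h4 : 1 + |s.im + τ| ≤ (1 + |τ|) * (1 + |s.im|) := by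
      have := abs_add_le s.im τ
      nlinarith [abs_nonneg s.im, abs_nonneg τ, mul_nonneg (abs_nonneg s.im) (abs_nonneg τ)]
    have h0 : (1:ℝ) ≤ 1 + |s.im + τ| := by linarith [abs_nonneg (s.im + τ)]
    have h1' : (1:ℝ) ≤ 1 + |s.im| := by linarith [abs_nonneg s.im]
    have hτ1 : (1:ℝ) ≤ 1 + |τ| := by linarith [abs_nonneg τ]
    have hA0 := abs_nonneg A
    set A' : ℝ := |A| * (1 + |τ|) ^ |A| + |A| with hA'
    have hA'A : |A| ≤ A' := by
      rw [hA']
      have : 0 ≤ |A| * (1 + |τ|) ^ |A| := by positivity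
      linarith
    calc A * (1 + |s.im + τ|) ^ A ≤ |A| * (1 + |s.im + τ|) ^ A :=
          mul_le_mul_of_nonneg_right (le_abs_self A) (by positivity)
      _ ≤ |A| * (1 + |s.im + τ|) ^ |A| := by
          apply mul_le_mul_of_nonneg_left _ hA0
          exact Real.rpow_le_rpow_of_exponent_le h0 (le_abs_self A)
      _ ≤ |A| * ((1 + |τ|) * (1 + |s.im|)) ^ |A| := by
          apply mul_le_mul_of_nonneg_left _ hA0
          exact Real.rpow_le_rpow (by linarith) h4 hA0
      _ = |A| * (1 + |τ|) ^ |A| * (1 + |s.im|) ^ |A| := by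
          rw [Real.mul_rpow (by linarith) (by linarith)]; ring
      _ ≤ A' * (1 + |s.im|) ^ A' := by
          apply mul_le_mul
          · rw [hA']; linarith
          · exact Real.rpow_le_rpow_of_exponent_le h1' hA'A
          · positivity
          · linarith
  fe := by
    intro s
    have h := π.fe (s + τ * I)
    have e1 : ∀ j, 1 - (s + τ * I) - (starRingEnd ℂ) (π.mu j) =
        1 - s - (starRingEnd ℂ) (π.mu j - τ * I) := by
      intro j; simp; ring
    have e2 : ∀ j, s + τ * I - π.mu j = s - (π.mu j - τ * I) := by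
      intro j; ring
    have e3 : 1 - (starRingEnd ℂ) (s + τ * I) = 1 - (starRingEnd ℂ) s + τ * I := by
      simp; ring
    have e4 : (π.N : ℂ) ^ (1 / 2 - (s + τ * I)) =
        (π.N : ℂ) ^ (-(τ * I)) * (π.N : ℂ) ^ (1 / 2 - s) := by
      rw [← Complex.cpow_add _ _ (by exact_mod_cast π.N_pos.ne')]
      congr 1
      ring
    simp only [e1, e2] at h
    rw [e3, e4] at h
    rw [h]
    ring

/-- A family of such data closed under the twists by `|.|^{iτ}`, `τ` real. -/
def TwistClosed (F : Set (StandardL m)) : Prop := ∀ π ∈ F, ∀ τ : ℝ, twist π τ ∈ F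

/-- Molteni's bound to the right of the line `Re s = 1`. -/
def RightBound (F : Set (StandardL m)) : Prop :=
  ∀ δ : ℝ, 0 < δ → ∃ B : ℝ, ∀ π ∈ F, ∀ s : ℂ, 1 + δ ≤ s.re → ‖π.L s‖ ≤ B * conductor π ^ δ

/-- The bound of Q1: `|L(1/2+it, π)| ≤ B ((1+|t|) C_π)^ε` for all `π` in the family, all real `t`. -/
def GLH (F : Set (StandardL m)) : Prop :=
  ∀ ε : ℝ, 0 < ε → ∃ B : ℝ, ∀ π ∈ F, ∀ t : ℝ,
    ‖π.L (1 / 2 + t * I)‖ ≤ B * ((1 + |t|) * conductor π) ^ ε

/-- `|L(1/2, π)| ≤ B C_π^(κ+ε)` for all `π` in the family. -/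
def CentralBound (F : Set (StandardL m)) (κ : ℝ) : Prop :=
  ∀ ε : ℝ, 0 < ε → ∃ B : ℝ, ∀ π ∈ F, ‖π.L (1 / 2)‖ ≤ B * conductor π ^ (κ + ε)

/-- For every `D < 1 - 4κ` and `ε > 0`, for all `π` of large conductor there is a `t` with
`0 ≤ t ≤ 2π/(D log C_π)` and `|L(1/2+it, π)| ≤ C_π^(κ+ε)`. -/
def SmallGap (F : Set (StandardL m)) (κ : ℝ) : Prop :=
  ∀ D : ℝ, 0 < D → D < 1 - 4 * κ → ∀ ε : ℝ, 0 < ε → ∃ C0 : ℝ, ∀ π ∈ F, C0 ≤ conductor π →
    ∃ t : ℝ, 0 ≤ t ∧ t ≤ 2 * Real.pi / (D * Real.log (conductor π)) ∧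
      ‖π.L (1 / 2 + t * I)‖ ≤ conductor π ^ (κ + ε)

/-- For some `ρ > 0`, for every `ε > 0` and `h > 0` and all `π` of large conductor, the set of
`t` in `[0, h]` with `|L(1/2+it, π)| ≤ C_π^(κ+ε)` has measure at least `ρ h`. -/
def PositiveProportion (F : Set (StandardL m)) (κ : ℝ) : Prop :=
  ∃ ρ : ℝ, 0 < ρ ∧ ∀ ε : ℝ, 0 < ε → ∀ h : ℝ, 0 < h → ∃ C0 : ℝ, ∀ π ∈ F, C0 ≤ conductor π →
    ENNReal.ofReal (ρ * h) ≤ MeasureTheory.volume
      {t : ℝ | 0 ≤ t ∧ t ≤ h ∧ ‖π.L (1 / 2 + t * I)‖ ≤ conductor π ^ (κ + ε)}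

/-- A set of primitive Dirichlet characters of modulus `> 1`, one predicate for each modulus. -/
abbrev Chars : Type := (q : ℕ) → DirichletCharacter ℂ q → Prop

/-- `|L(1/2+it, χ)| ≤ B (q(1+|t|))^(κ+ε)` for all primitive `χ` in `S` of modulus `q > 1`, all
real `t`. -/
def DirichletBound (S : Chars) (κ : ℝ) : Prop :=
  ∀ ε : ℝ, 0 < ε → ∃ B : ℝ, ∀ (q : ℕ) [NeZero q] (χ : DirichletCharacter ℂ q), 1 < q →
    χ.IsPrimitive → S q χ → ∀ t : ℝ,
      ‖DirichletCharacter.LFunction χ (1 / 2 + t * I)‖ ≤ B * (q * (1 + |t|)) ^ (κ + ε)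

/-- For every `D < 1 - 4κ` and `ε > 0`, if `C = q(1+|T|)` is large, there is a `t` in the interval
`[T, T + 2π/(D log C)]` with `|L(1/2+it, χ)| ≤ C^(κ+ε)`. -/
def DirichletSmallGaps (S : Chars) (κ : ℝ) : Prop :=
  ∀ D : ℝ, 0 < D → D < 1 - 4 * κ → ∀ ε : ℝ, 0 < ε → ∃ C0 : ℝ,
    ∀ (q : ℕ) [NeZero q] (χ : DirichletCharacter ℂ q), 1 < q → χ.IsPrimitive → S q χ →
      ∀ T : ℝ, C0 ≤ q * (1 + |T|) → ∃ t : ℝ, T ≤ t ∧
        t ≤ T + 2 * Real.pi / (D * Real.log (q * (1 + |T|))) ∧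
        ‖DirichletCharacter.LFunction χ (1 / 2 + t * I)‖ ≤ (q * (1 + |T|)) ^ (κ + ε)

/-- For some `ρ > 0`, for every `ε > 0` and `h > 0`, if `C = q(1+|T|)` is large, the set of `t` in
`[T, T+h]` with `|L(1/2+it, χ)| ≤ C^(κ+ε)` has measure at least `ρ h`. -/
def DirichletPositiveProportion (S : Chars) (κ : ℝ) : Prop :=
  ∃ ρ : ℝ, 0 < ρ ∧ ∀ ε : ℝ, 0 < ε → ∀ h : ℝ, 0 < h → ∃ C0 : ℝ,
    ∀ (q : ℕ) [NeZero q] (χ : DirichletCharacter ℂ q), 1 < q → χ.IsPrimitive → S q χ →
      ∀ T : ℝ, C0 ≤ q * (1 + |T|) → ENNReal.ofReal (ρ * h) ≤ MeasureTheory.volume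
        {t : ℝ | T ≤ t ∧ t ≤ T + h ∧
          ‖DirichletCharacter.LFunction χ (1 / 2 + t * I)‖ ≤ (q * (1 + |T|)) ^ (κ + ε)}

open H855R2.SF

/-- the family as a family of functions with a conductor -/
theorem afam {F : Set (StandardL m)} (hF : TwistClosed F) (hR : RightBound F) :
    AFam (m : ℝ) (fun (i : F) => i.1.L) (fun (i : F) (t : ℝ) => conductor (twist i.1 t)) where
  m0 := Nat.cast_nonneg m
  Q1 := fun i t => cond_one_le i.1.N_pos i.1.mu t
  Qs := fun i t u => cond_shift i.1.N i.1.mu t u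
  diff := fun i => i.1.entire
  order := fun i => i.1.order
  right := by
    intro δ hδ
    obtain ⟨B, hB⟩ := hR δ hδ
    refine ⟨B, fun i s hs => ?_⟩
    have h := hB (twist i.1 s.im) (hF i.1 i.2 s.im) s.re (by simpa using hs)
    have e : (s.re : ℂ) + s.im * I = s := Complex.re_add_im s
    simp only [twist] at h
    rw [e] at h
    exact h
  refl := by
    refine ⟨16 ^ m, by positivity, fun i x t hx0 hx1 => ?_⟩
    exact refl_of_fe i.1.N_pos i.1.mu i.1.mu_lt i.1.norm_root i.1.fe hx0 hx1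

theorem half_I (t : ℝ) : (1 / 2 : ℂ) + t * I = ⟨1 / 2, t⟩ := (half_eq t).symm

theorem conductor_twist_zero (π : StandardL m) : conductor (twist π 0) = conductor π := by
  simp [conductor, twist]

theorem one_le_conductor (π : StandardL m) : 1 ≤ conductor π := by
  have := cond_one_le π.N_pos π.mu 0
  simpa [conductor] using this

theorem central_iff {F : Set (StandardL m)} (hF : TwistClosed F) {κ : ℝ} :
    CentralBound F κ ↔
      ZO (fun (i : F) => i.1.L) (fun (i : F) (t : ℝ) => conductor (twist i.1 t)) κ := by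
  constructor
  · intro h ε hε
    obtain ⟨B, hB⟩ := h ε hε
    refine ⟨B, fun i t => ?_⟩
    have h1 := hB (twist i.1 t) (hF i.1 i.2 t)
    have e : (twist i.1 t).L (1 / 2) = i.1.L ⟨1 / 2, t⟩ := by
      simp only [twist]
      rw [half_I]
    rw [e] at h1
    exact h1
  · intro h ε hε
    obtain ⟨B, hB⟩ := h ε hε
    refine ⟨B, fun π hπ => ?_⟩
    have h1 := hB ⟨π, hπ⟩ 0
    simp only at h1
    rw [conductor_twist_zero, ← half_I] at h1
    simpa using h1

theorem glh_iff {F : Set (StandardL m)} (hF : TwistClosed F) : GLH F ↔ CentralBound F 0 := by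
  constructor
  · intro h ε hε
    obtain ⟨B, hB⟩ := h ε hε
    refine ⟨B, fun π hπ => ?_⟩
    have h1 := hB π hπ 0
    simpa using h1
  · intro h ε hε
    have hm1 : (0:ℝ) < m + 1 := by positivity
    obtain ⟨B, hB⟩ := h (ε / (m + 1)) (by positivity)
    refine ⟨|B|, fun π hπ t => ?_⟩
    have h1 := hB (twist π t) (hF π hπ t)
    have e : (twist π t).L (1 / 2) = π.L (1 / 2 + t * I) := rfl
    rw [e, zero_add] at h1
    have hc := one_le_conductor π
    have hct := one_le_conductor (twist π t)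
    have hs : conductor (twist π t) ≤ (1 + |t|) ^ (m:ℝ) * conductor π := by
      have := cond_shift π.N π.mu 0 t
      simpa [conductor, twist] using this
    have ht1 : (1:ℝ) ≤ 1 + |t| := by linarith [abs_nonneg t]
    refine h1.trans ?_
    apply mul_le_mul (le_abs_self B) _ (by positivity) (abs_nonneg B)
    calc conductor (twist π t) ^ (ε / (m + 1)) ≤ ((1 + |t|) ^ (m:ℝ) * conductor π) ^ (ε / (m + 1)) :=
          Real.rpow_le_rpow (by linarith) hs (by positivity)
      _ = (1 + |t|) ^ ((m:ℝ) * (ε / (m + 1))) * conductor π ^ (ε / (m + 1)) := by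
          rw [Real.mul_rpow (by positivity) (by linarith), ← Real.rpow_mul (by linarith)]
      _ ≤ (1 + |t|) ^ ε * conductor π ^ ε := by
          apply mul_le_mul
          · apply Real.rpow_le_rpow_of_exponent_le ht1
            rw [mul_div_assoc', div_le_iff₀ hm1]
            nlinarith
          · apply Real.rpow_le_rpow_of_exponent_le hc
            rw [div_le_iff₀ hm1]
            have : (0:ℝ) ≤ m := Nat.cast_nonneg m
            nlinarith
          · positivity
          · positivity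
      _ = ((1 + |t|) * conductor π) ^ ε := by rw [Real.mul_rpow (by linarith) (by linarith)]

theorem general {F : Set (StandardL m)} (hF : TwistClosed F) (hR : RightBound F) {κ : ℝ}
    (hκ0 : 0 ≤ κ) (hκ1 : κ < 1 / 4) :
    List.TFAE [CentralBound F κ, SmallGap F κ, PositiveProportion F κ] := by
  have H := afam hF hR
  have hpi := Real.pi_pos
  tfae_have 1 → 2 := by
    intro h D hD0 hD1 ε hε
    obtain ⟨Q0, hQ0⟩ := gap_of_ZO H ((central_iff hF).1 h) ε hε
    refine ⟨Q0, fun π hπ hc => ⟨0, le_rfl, ?_, ?_⟩⟩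
    · have := Real.log_nonneg (one_le_conductor π)
      positivity
    · have h1 := hQ0 ⟨π, hπ⟩ 0 (by simp only; rw [conductor_twist_zero]; exact hc)
      simp only at h1
      rw [conductor_twist_zero, ← half_I] at h1
      exact h1
  tfae_have 2 → 1 := by
    intro h
    rw [central_iff hF]
    apply ZO_of_gap H hκ0 hκ1
    intro D hD0 hD1 ε hε
    obtain ⟨C0, hC0⟩ := h D hD0 hD1 ε hε
    refine ⟨C0, fun i T hT => ?_⟩
    obtain ⟨t, ht0, ht1, ht2⟩ := hC0 (twist i.1 T) (hF i.1 i.2 T) hT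
    refine ⟨T + t, by linarith, by linarith, ?_⟩
    have e : (twist i.1 T).L (1 / 2 + t * I) = i.1.L ⟨1 / 2, T + t⟩ := by
      simp only [twist]
      rw [← half_I]
      congr 1
      push_cast
      ring
    rw [e] at ht2
    exact ht2
  tfae_have 1 → 3 := by
    intro h
    refine ⟨1, one_pos, fun ε hε w hw => ?_⟩
    obtain ⟨Q0, hQ0⟩ := meas_of_ZO H hκ0 ((central_iff hF).1 h) ε hε w hw
    refine ⟨Q0, fun π hπ hc => ?_⟩
    have h1 := hQ0 ⟨π, hπ⟩ 0 (by simp only; rw [conductor_twist_zero]; exact hc)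
    refine h1.trans (le_of_eq ?_)
    congr 1
    ext t
    simp only [Set.mem_ofPred_eq]
    rw [conductor_twist_zero, zero_add, half_I]
  tfae_have 3 → 1 := by
    rintro ⟨ρ, hρ, h⟩
    rw [central_iff hF]
    apply ZO_of_meas H hκ0 hρ
    intro ε hε w hw
    obtain ⟨C0, hC0⟩ := h ε hε w hw
    refine ⟨C0, fun i T hT => ?_⟩
    have h1 := hC0 (twist i.1 T) (hF i.1 i.2 T) hT
    refine h1.trans (le_of_eq ?_)
    have hset : {t : ℝ | 0 ≤ t ∧ t ≤ w ∧ ‖(twist i.1 T).L (1 / 2 + t * I)‖ ≤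
        conductor (twist i.1 T) ^ (κ + ε)} = (fun t => T + t) ⁻¹' {t : ℝ | T ≤ t ∧ t ≤ T + w ∧
        ‖i.1.L ⟨1 / 2, t⟩‖ ≤ conductor (twist i.1 T) ^ (κ + ε)} := by
      ext t
      simp only [Set.mem_ofPred_eq, Set.mem_preimage]
      have e : (twist i.1 T).L (1 / 2 + t * I) = i.1.L ⟨1 / 2, T + t⟩ := by
        simp only [twist]
        rw [← half_I]
        congr 1
        push_cast
        ring
      rw [e]
      constructor
      · rintro ⟨h2, h3, h4⟩
        exact ⟨by linarith, by linarith, h4⟩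
      · rintro ⟨h2, h3, h4⟩
        exact ⟨by linarith, by linarith, h4⟩
    rw [hset, MeasureTheory.measure_preimage_add]
  tfae_finish

theorem dirBound_iff (S : Chars) (κ : ℝ) :
    DirichletBound S κ ↔ ZO (dirL (S := S)) (dirQ (S := S)) κ := by
  constructor
  · intro h ε hε
    obtain ⟨B, hB⟩ := h ε hε
    refine ⟨B, fun i t => ?_⟩
    have h1 := hB i.q i.χ i.hq i.prim i.mem t
    rw [half_I] at h1
    exact h1
  · intro h ε hε
    obtain ⟨B, hB⟩ := h ε hε
    refine ⟨B, fun q _ χ hq hχ hS t => ?_⟩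
    have h1 := hB ⟨q, hq, χ, hχ, hS⟩ t
    rw [half_I]
    exact h1

theorem dirichlet (S : Chars) {κ : ℝ} (hκ0 : 0 ≤ κ) (hκ1 : κ < 1 / 4) :
    List.TFAE [DirichletBound S κ, DirichletSmallGaps S κ, DirichletPositiveProportion S κ] := by
  have H := dir_afam S
  have hpi := Real.pi_pos
  tfae_have 1 → 2 := by
    intro h D hD0 hD1 ε hε
    obtain ⟨Q0, hQ0⟩ := gap_of_ZO H ((dirBound_iff S κ).1 h) ε hε
    refine ⟨Q0, fun q _ χ hq hχ hS T hT => ⟨T, le_rfl, ?_, ?_⟩⟩
    · have h1 : (1:ℝ) ≤ q * (1 + |T|) := H.Q1 ⟨q, hq, χ, hχ, hS⟩ T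
      have := Real.log_nonneg h1
      have : 0 ≤ 2 * Real.pi / (D * Real.log (q * (1 + |T|))) := by positivity
      linarith
    · have h1 := hQ0 ⟨q, hq, χ, hχ, hS⟩ T hT
      rw [half_I]
      exact h1
  tfae_have 2 → 1 := by
    intro h
    rw [dirBound_iff]
    apply ZO_of_gap H hκ0 hκ1
    intro D hD0 hD1 ε hε
    obtain ⟨C0, hC0⟩ := h D hD0 hD1 ε hε
    refine ⟨C0, fun i T hT => ?_⟩
    obtain ⟨t, ht0, ht1, ht2⟩ := hC0 i.q i.χ i.hq i.prim i.mem T hT
    rw [half_I] at ht2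
    exact ⟨t, ht0, ht1, ht2⟩
  tfae_have 1 → 3 := by
    intro h
    refine ⟨1, one_pos, fun ε hε w hw => ?_⟩
    obtain ⟨Q0, hQ0⟩ := meas_of_ZO H hκ0 ((dirBound_iff S κ).1 h) ε hε w hw
    refine ⟨Q0, fun q _ χ hq hχ hS T hT => ?_⟩
    have h1 := hQ0 ⟨q, hq, χ, hχ, hS⟩ T hT
    simp only [half_I]
    exact h1
  tfae_have 3 → 1 := by
    rintro ⟨ρ, hρ, h⟩
    rw [dirBound_iff]
    apply ZO_of_meas H hκ0 hρ
    intro ε hε w hw
    obtain ⟨C0, hC0⟩ := h ε hε w hw
    refine ⟨C0, fun i T hT => ?_⟩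
    have h1 := hC0 i.q i.χ i.hq i.prim i.mem T hT
    simp only [half_I] at h1
    exact h1
  tfae_finish

/-- **Sampling theorem for families of L-functions.** (1) For every `m` and every twist-closed
family `F` of standard L-functions of degree `m` satisfying Molteni's bound, the bound of Q1 holds
for `F` if and only if for every `D < 1` and `ε > 0`, for all `π` in `F` of large conductor,
`|L(1/2+it, π)| ≤ C_π^ε` for at least one `t` in `[0, 2π/(D log C_π)]`; and if and only if such `t`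
have positive proportion in `[0, h]`; similarly for every exponent `κ < 1/4`, with `D < 1 - 4κ`.
(2) The same, with no hypothesis, for every set of primitive Dirichlet characters. -/
theorem result :
    (∀ (m : ℕ) (F : Set (StandardL m)), TwistClosed F → RightBound F →
      (GLH F ↔ CentralBound F 0) ∧
      ∀ κ : ℝ, 0 ≤ κ → κ < 1 / 4 →
        List.TFAE [CentralBound F κ, SmallGap F κ, PositiveProportion F κ]) ∧
    (∀ (S : Chars) (κ : ℝ), 0 ≤ κ → κ < 1 / 4 →
      List.TFAE [DirichletBound S κ, DirichletSmallGaps S κ, DirichletPositiveProportion S κ]) :=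
  ⟨fun _ _ hF hR => ⟨glh_iff hF, fun _ h0 h1 => general hF hR h0 h1⟩,
    fun S _ h0 h1 => dirichlet S h0 h1⟩

end Pool.Agent.Results.MP_52e316_nt.Sampling
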