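import Pool.Agent.H442R2.TSM.QAsm

/-!
The second moment of the Dirichlet L-functions modulo a prime `q` at a point `1/2 + it` of the
critical line, against an arbitrary Dirichlet polynomial of length `q^θ`, for every `θ < 14/27`: the
bound of Lindelöf quality `q^(1+ε)`. (Previously `θ < 51/101`, Bui, Pratt, Robles, Zaharescu.)
-/

namespace Pool.Agent.Results.MP_52e316_nt.TwistedMomentModQ

open Finset

theorem result (t : ℝ) (θ : ℝ) (hθ0 : 0 < θ) (hθ : θ < 14 / 27) (ε : ℝ) (hε : 0 < ε) :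
    ∃ C : ℝ, 0 < C ∧ ∀ (q : ℕ) [NeZero q], q.Prime → ∀ N : ℕ, (N : ℝ) ≤ (q : ℝ) ^ θ →
    ∀ a : ℕ → ℂ, (∀ n, ‖a n‖ ≤ 1) → ∀ S : Finset (DirichletCharacter ℂ q), 1 ∉ S →
    ∑ χ ∈ S, ‖χ.LFunction (1 / 2 + (t : ℂ) * Complex.I)‖ ^ 2 *
      ‖∑ n ∈ Icc 1 N, a n * χ (n : ZMod q) *
        (n : ℂ) ^ (-(1 / 2 + (t : ℂ) * Complex.I))‖ ^ 2 ≤ C * (q : ℝ) ^ (1 + ε) := by
  obtain ⟨C, hC, h⟩ := Pool.Agent.H442R2.TSM.finalq_thm t θ hθ0 hθ ε hε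
  refine ⟨C, hC, ?_⟩
  intro q _ hq N hN a ha S hS
  refine le_trans (Finset.sum_le_sum_of_subset_of_nonneg ?_ ?_) (h q hq N hN a ha)
  · intro χ hχ
    exact (@Finset.mem_erase _ (Classical.decEq (DirichletCharacter ℂ q)) _ _ _).2
      ⟨fun h1 => hS (h1 ▸ hχ), Finset.mem_univ _⟩
  · intro χ _ _
    positivity

end Pool.Agent.Results.MP_52e316_nt.TwistedMomentModQ
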