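import Pool.Agent.H429R2.GP.Fin

/-!
# The Grand Lindelof Hypothesis for GL(1) and the weak Gram law

For a primitive Dirichlet character `χ` modulo `q` let `X(s, χ)` be the factor of the functional
equation `L(s, χ) = X(s, χ) * conj (L(1 - conj s, χ))`.  Fix a complex number `ω` of modulus one.
The `ω`-Gram points of `χ` are the real `g` with `X(1/2 + i g, χ) = ω ^ 2`; at such a point
`conj ω * L(1/2 + i g, χ)` is real (for `ω = 1` and the Riemann zeta function these are the
classical Gram points).  We prove: for every family of primitive characters and every exponent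
`κ ≥ 0`, a two-sided bound with exponent `κ + ε` on the whole critical line (in the conductor and
in `t`) is equivalent to a ONE-SIDED bound with exponent `κ + ε` at the Gram points only.
-/

open Complex

namespace Pool.Agent.Results.MP_52e316_nt.WeakGram

/-- The real number `g` is an `ω`-Gram point of the Dirichlet character `χ` modulo `q`: the factor
`X(s, χ) = q ^ (1/2 - s) * W(χ) * γ(1 - s, χ) / γ(s, χ)` of the functional equation of `L(s, χ)`
takes the value `ω ^ 2` at `s = 1/2 + i g` (here `W(χ)` is the root number and `γ(s, χ)` the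
gamma factor, which does not vanish on the critical line). -/
def GramPoint {q : ℕ} [NeZero q] (χ : DirichletCharacter ℂ q) (ω : ℂ) (g : ℝ) : Prop :=
  (q : ℂ) ^ (-(g * I)) * χ.rootNumber * χ.gammaFactor (1 / 2 - g * I) =
    ω ^ 2 * χ.gammaFactor (1 / 2 + g * I)

open scoped Classical in
/-- The parity of a Dirichlet character: `0` if `χ(-1) = 1` and `1` if `χ(-1) = -1`. -/
noncomputable def parity {q : ℕ} (χ : DirichletCharacter ℂ q) : ℂ :=
  if χ.Even then 0 else 1

/-- The analytic conductor `N_π (1 + |μ_π|)` of the cuspidal automorphic representation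
`π = χ |.|^{iτ}` of `GL(1)` over the rationals, where `χ` is a primitive Dirichlet character
modulo `q` of parity `a`: here `N_π = q`, `L(s, π) = L(s + iτ, χ)` and
`L(s, π_∞) = Γ_ℝ (s + a + iτ)`, that is `μ_π = -(a + iτ)`. -/
noncomputable def analyticConductor {q : ℕ} (χ : DirichletCharacter ℂ q) (τ : ℝ) : ℝ :=
  q * (1 + ‖parity χ + τ * I‖)

theorem parity_cases {q : ℕ} (χ : DirichletCharacter ℂ q) : parity χ = 0 ∨ parity χ = 1 := by
  unfold parity
  split_ifs <;> simp

theorem gram_iff {q : ℕ} [NeZero q] {χ : DirichletCharacter ℂ q} {ω : ℂ} {g : ℝ} :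
    GramPoint χ ω g ↔ H370.DL.XX χ ⟨1 / 2, g⟩ = ω ^ 2 := by
  have h1 : (⟨1 / 2, g⟩ : ℂ) = 1 / 2 + g * I := by
    apply Complex.ext <;> simp
  have h2 : (1 : ℂ) - (1 / 2 + g * I) = 1 / 2 - g * I := by ring
  have h3 : (1 / 2 : ℂ) - (1 / 2 + g * I) = -(g * I) := by ring
  unfold GramPoint H370.DL.XX
  rw [h1, h2, h3, H370.DL.gammaFactor_eq, H370.DL.gammaFactor_eq]
  have hne : Gammaℝ (1 / 2 + g * I + H370.DL.aa χ) ≠ 0 := by
    apply Gammaℝ_ne_zero_of_re_pos
    have := H429.GP.aa_re_nonneg (χ := χ)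
    simp only [add_re, mul_re, ofReal_re, I_re, mul_zero, ofReal_im, I_im, mul_one, sub_self,
      add_zero]
    norm_num
    linarith
  rw [div_eq_iff hne]

theorem result (ω : ℂ) (hω : ‖ω‖ = 1) (S : (q : ℕ) → DirichletCharacter ℂ q → Prop)
    (κ : ℝ) (hκ : 0 ≤ κ) :
    (∀ ε : ℝ, 0 < ε → ∃ B : ℝ, ∀ (q : ℕ) [NeZero q] (χ : DirichletCharacter ℂ q),
      χ.IsPrimitive → S q χ → ∀ τ t : ℝ,
        ‖χ.LFunction (1 / 2 + t * I + τ * I)‖ ≤
          B * ((1 + |t|) * analyticConductor χ τ) ^ (κ + ε)) ↔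
    (∀ ε : ℝ, 0 < ε → ∃ B : ℝ, ∀ (q : ℕ) [NeZero q] (χ : DirichletCharacter ℂ q),
      χ.IsPrimitive → S q χ → ∀ g : ℝ, GramPoint χ ω g →
        -B * ((q : ℝ) * (1 + |g|)) ^ (κ + ε) ≤
          ((starRingEnd ℂ) ω * χ.LFunction (1 / 2 + g * I)).re) := by
  constructor
  · intro h ε hε
    obtain ⟨B, hB⟩ := h ε hε
    refine ⟨|B| * 2 ^ (κ + ε), ?_⟩
    intro q _ χ hχ hS g _
    have h1 := hB q χ hχ hS 0 g
    have hq := H429.GP.one_le_q q
    have h2 : (1 / 2 : ℂ) + g * I + (0 : ℝ) * I = 1 / 2 + g * I := by push_cast; ring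
    rw [h2] at h1
    have h3 : analyticConductor χ 0 ≤ 2 * q := by
      unfold analyticConductor
      have : ‖parity χ + (0 : ℝ) * I‖ ≤ 1 := by
        rcases parity_cases χ with h | h <;> rw [h] <;> simp
      nlinarith
    have h30 : 0 ≤ analyticConductor χ 0 := by
      unfold analyticConductor
      positivity
    have h4 : ((1 + |g|) * analyticConductor χ 0) ^ (κ + ε) ≤
        2 ^ (κ + ε) * ((q : ℝ) * (1 + |g|)) ^ (κ + ε) := by
      rw [← Real.mul_rpow (by norm_num) (by positivity)]
      apply Real.rpow_le_rpow (by positivity) _ (by positivity)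
      have : (1 + |g|) * analyticConductor χ 0 ≤ (1 + |g|) * (2 * q) :=
        mul_le_mul_of_nonneg_left h3 (by positivity)
      linarith
    have h5 : ‖χ.LFunction (1 / 2 + g * I)‖ ≤
        |B| * 2 ^ (κ + ε) * ((q : ℝ) * (1 + |g|)) ^ (κ + ε) := by
      calc _ ≤ B * ((1 + |g|) * analyticConductor χ 0) ^ (κ + ε) := h1
        _ ≤ |B| * ((1 + |g|) * analyticConductor χ 0) ^ (κ + ε) := by
            apply mul_le_mul_of_nonneg_right (le_abs_self B) (by positivity)
        _ ≤ |B| * (2 ^ (κ + ε) * ((q : ℝ) * (1 + |g|)) ^ (κ + ε)) :=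
            mul_le_mul_of_nonneg_left h4 (abs_nonneg B)
        _ = _ := by ring
    have h6 := (abs_le.mp (abs_re_le_norm ((starRingEnd ℂ) ω * χ.LFunction (1 / 2 + g * I)))).1
    rw [norm_mul, RCLike.norm_conj, hω, one_mul] at h6
    linarith
  · intro h ε hε
    obtain ⟨B, hB⟩ := h (ε / 2) (by linarith)
    obtain ⟨C, hC, htr⟩ := H429.GP.transfer hω (κ := κ + ε / 2) (ε := ε / 2) (by linarith)
      (by linarith)
    refine ⟨C * (1 + |B|), ?_⟩
    intro q _ χ hχ hS τ t
    have hq := H429.GP.one_le_q q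
    have hone : H429.GP.OneSidedAt q χ ω (κ + ε / 2) |B| := by
      intro y hy
      have h1 := hB q χ hχ hS y (gram_iff.mpr hy)
      have h2 : (⟨1 / 2, y⟩ : ℂ) = 1 / 2 + y * I := by
        apply Complex.ext <;> simp
      rw [h2]
      refine le_trans ?_ h1
      apply mul_le_mul_of_nonneg_right _ (by positivity)
      linarith [le_abs_self B]
    have h3 := htr q χ hχ |B| (abs_nonneg B) hone (t + τ)
    have h4 : (⟨1 / 2, t + τ⟩ : ℂ) = 1 / 2 + t * I + τ * I := by
      apply Complex.ext <;> simp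
    rw [h4] at h3
    refine h3.trans ?_
    have h5 : κ + ε / 2 + ε / 2 = κ + ε := by ring
    rw [h5]
    apply mul_le_mul_of_nonneg_left _ (by positivity)
    apply Real.rpow_le_rpow (by positivity) _ (by positivity)
    have h6 : |t + τ| ≤ |t| + |τ| := abs_add_le _ _
    have h7 : (q : ℝ) * (1 + |τ|) ≤ analyticConductor χ τ := by
      unfold analyticConductor
      apply mul_le_mul_of_nonneg_left _ (by linarith)
      have h8 := abs_im_le_norm (parity χ + τ * I)
      have h9 : (parity χ + τ * I).im = τ := by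
        rcases parity_cases χ with h | h <;> rw [h] <;> simp
      rw [h9] at h8
      linarith
    calc (q : ℝ) * (1 + |t + τ|) ≤ q * ((1 + |t|) * (1 + |τ|)) := by
          apply mul_le_mul_of_nonneg_left _ (by linarith)
          nlinarith [abs_nonneg t, abs_nonneg τ]
      _ = (1 + |t|) * (q * (1 + |τ|)) := by ring
      _ ≤ _ := mul_le_mul_of_nonneg_left h7 (by positivity)

end Pool.Agent.Results.MP_52e316_nt.WeakGram
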